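import Pool.Agent.Helper38.GH.Four
import Pool.Agent.Helper45.GH.P2
import Pool.Agent.Helper34.GH.Ext

/-!
Project GH, block P4: the pair lemma.
-/

set_option linter.unusedSectionVars false
set_option linter.unusedVariables false
set_option linter.unusedSimpArgs false

open Matrix Module

namespace GH

open MH

variable {m : Type*} [Fintype m] [DecidableEq m] {k : Type*} [Fintype k] [DecidableEq k]
  {P : Submodule ℂ (Matrix m m ℂ × Matrix k k ℂ)} {h₁ : Matrix m m ℂ} {E₁ : ℝ → Matrix m m ℂ} {Λ₁ : Finset ℝ}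
  {h₂ : Matrix k k ℂ} {E₂ : ℝ → Matrix k k ℂ} {Λ₂ : Finset ℝ}

/-- the map `y ↦ -yᵀ` -/
private def nt58 (k : Type*) [Fintype k] [DecidableEq k] : Matrix k k ℂ ≃ₗ[ℂ] Matrix k k ℂ :=
  (transposeLinearEquiv k k ℂ ℂ).trans (LinearEquiv.neg ℂ)

private lemma nt58_apply (y : Matrix k k ℂ) : nt58 k y = -yᵀ := rfl

/-- the pairs `(p.1, -p.2ᵀ)` -/
private def P58 (P : Submodule ℂ (Matrix m m ℂ × Matrix k k ℂ)) : Submodule ℂ (Matrix m m ℂ × Matrix k k ℂ) :=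
  P.map (LinearMap.prodMap LinearMap.id (nt58 k).toLinearMap)

private lemma mem_P58 {p : Matrix m m ℂ × Matrix k k ℂ} (hp : p ∈ P) : (p.1, -p.2ᵀ) ∈ P58 P := ⟨p, hp, rfl⟩

private lemma of_P58 {q : Matrix m m ℂ × Matrix k k ℂ} (hq : q ∈ P58 P) : ∃ p ∈ P, q = (p.1, -p.2ᵀ) := by
  obtain ⟨p, hp, rfl⟩ := hq
  exact ⟨p, hp, rfl⟩

private lemma br58 (x y : Matrix k k ℂ) : (-xᵀ) * (-yᵀ) - (-yᵀ) * (-xᵀ) = -(x * y - y * x)ᵀ := by
  rw [neg_mul_neg, neg_mul_neg, transpose_sub, transpose_mul, transpose_mul]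
  abel

private lemma tc58 (x : Matrix k k ℂ) : (xᵀ)ᴴ = (xᴴ)ᵀ := rfl

private lemma spec58 (S : Spec h₂ E₂ Λ₂) : Spec (-h₂ᵀ) (fun μ => (E₂ (-μ))ᵀ) (Λ₂.image (fun μ => -μ)) where
  star := fun μ => by
    change ((E₂ (-μ))ᵀ)ᴴ = (E₂ (-μ))ᵀ
    rw [tc58, S.star]
  mul := fun μ ν => by
    change (E₂ (-μ))ᵀ * (E₂ (-ν))ᵀ = if μ = ν then (E₂ (-μ))ᵀ else 0
    rw [← transpose_mul, S.mul]
    by_cases h : μ = ν
    · subst h; simp
    · rw [if_neg (fun h' => h (neg_injective h').symm), if_neg h, transpose_zero]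
  supp := fun μ hμ => by
    change (E₂ (-μ))ᵀ = 0
    rw [S.supp (-μ) (fun h => hμ (Finset.mem_image.mpr ⟨-μ, h, neg_neg μ⟩)), transpose_zero]
  sum := by
    rw [Finset.sum_image (fun a _ b _ h => neg_injective h)]
    simp only [neg_neg]
    rw [← transpose_sum, S.sum, transpose_one]
  eq := by
    rw [Finset.sum_image (fun a _ b _ h => neg_injective h)]
    simp only [neg_neg]
    conv_lhs => rw [S.eq]
    rw [transpose_sum, ← Finset.sum_neg_distrib]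
    refine Finset.sum_congr rfl fun μ _ => ?_
    rw [transpose_smul]
    push_cast
    rw [neg_smul]

private lemma PG.neg58 (D : PG P h₁ E₁ Λ₁ h₂ E₂ Λ₂) :
    PG (P58 P) h₁ E₁ Λ₁ (-h₂ᵀ) (fun μ => (E₂ (-μ))ᵀ) (Λ₂.image (fun μ => -μ)) where
  spec1 := D.spec1
  spec2 := spec58 D.spec2
  br := by
    intro p' hp' q' hq'
    obtain ⟨p, hp, rfl⟩ := of_P58 hp'
    obtain ⟨q, hq, rfl⟩ := of_P58 hq'
    have := mem_P58 (D.br p hp q hq)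
    rw [Prod.mk_mul_mk, Prod.mk_mul_mk, Prod.mk_sub_mk, br58]
    exact this
  st := by
    intro p' hp'
    obtain ⟨p, hp, rfl⟩ := of_P58 hp'
    have := mem_P58 (D.st p hp)
    change (p.1ᴴ, (-p.2ᵀ)ᴴ) ∈ P58 P
    rw [conjTranspose_neg, tc58]
    exact this
  mem := mem_P58 D.mem
  one1 := by
    have := mem_P58 D.one1
    simpa using this
  one2 := by
    have := mem_P58 (P.neg_mem D.one2)
    simpa using this

private lemma mem_Pd58 {ν : ℝ} {p : Matrix m m ℂ × Matrix k k ℂ} (hp : p ∈ Pd P h₁ h₂ ν) :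
    (p.1, -p.2ᵀ) ∈ Pd (P58 P) h₁ (-h₂ᵀ) ν := by
  obtain ⟨a, b, c⟩ := hp
  refine ⟨mem_P58 a, b, ?_⟩
  change (-h₂ᵀ) * (-p.2ᵀ) - (-p.2ᵀ) * (-h₂ᵀ) = (ν : ℂ) • (-p.2ᵀ)
  rw [br58, c, transpose_smul, smul_neg]

private lemma mem_PK58 {p : Matrix m m ℂ × Matrix k k ℂ} (hp : p ∈ PK P E₁ E₂) :
    (p.1, -p.2ᵀ) ∈ PK (P58 P) E₁ (fun μ => (E₂ (-μ))ᵀ) := by
  obtain ⟨a, b, c⟩ := hp
  refine ⟨mem_P58 a, b, ?_⟩
  change (E₂ (-0))ᵀ * (-p.2ᵀ) * (E₂ (-0))ᵀ = -p.2ᵀ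
  rw [neg_zero, mul_neg, neg_mul, ← transpose_mul, ← transpose_mul, ← mul_assoc, c]

private lemma of_PK58 {q : Matrix m m ℂ × Matrix k k ℂ} (hq : q ∈ PK (P58 P) E₁ (fun μ => (E₂ (-μ))ᵀ)) :
    ∃ p ∈ PK P E₁ E₂, q = (p.1, -p.2ᵀ) := by
  obtain ⟨a, b, c⟩ := hq
  obtain ⟨p, hp, rfl⟩ := of_P58 a
  refine ⟨p, ⟨hp, b, ?_⟩, rfl⟩
  change (E₂ (-0))ᵀ * (-p.2ᵀ) * (E₂ (-0))ᵀ = -p.2ᵀ at c
  rw [neg_zero, mul_neg, neg_mul, ← transpose_mul, ← transpose_mul, ← mul_assoc, neg_inj] at c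
  exact transpose_injective c

private lemma fst58 : (PK (P58 P) E₁ (fun μ => (E₂ (-μ))ᵀ)).map (LinearMap.fst ℂ _ _) =
    (PK P E₁ E₂).map (LinearMap.fst ℂ _ _) := by
  ext x
  constructor
  · rintro ⟨q, hq, rfl⟩
    obtain ⟨p, hp, rfl⟩ := of_PK58 hq
    exact ⟨p, hp, rfl⟩
  · rintro ⟨p, hp, rfl⟩
    exact ⟨_, mem_PK58 hp, rfl⟩

private lemma snd58 : (PK (P58 P) E₁ (fun μ => (E₂ (-μ))ᵀ)).map (LinearMap.snd ℂ _ _) =
    ((PK P E₁ E₂).map (LinearMap.snd ℂ _ _)).map (nt58 k).toLinearMap := by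
  ext x
  constructor
  · rintro ⟨q, hq, rfl⟩
    obtain ⟨p, hp, rfl⟩ := of_PK58 hq
    exact ⟨p.2, ⟨p, hp, rfl⟩, rfl⟩
  · rintro ⟨y, ⟨p, hp, rfl⟩, rfl⟩
    exact ⟨_, mem_PK58 hp, rfl⟩

private lemma nr1_58 (n1 : Nr1 P h₁ h₂) : Nr1 (P58 P) h₁ (-h₂ᵀ) := by
  intro T hT hT'
  exact n1 T hT fun ν hν p hp => hT' ν hν (p.1, -p.2ᵀ) (mem_Pd58 hp)

private lemma nr2_58 (n2 : Nr2 P h₁ h₂) : Nr2 (P58 P) h₁ (-h₂ᵀ) := by
  intro T hT hT'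
  obtain ⟨c, hc⟩ := n2 Tᵀ (by
    have := congrArg Matrix.transpose hT
    simpa [transpose_mul] using this.symm) (fun ν hν p hp => by
    have := congrArg Matrix.transpose (hT' ν hν (p.1, -p.2ᵀ) (mem_Pd58 hp))
    simpa [transpose_mul] using this.symm)
  refine ⟨c, ?_⟩
  have := congrArg Matrix.transpose hc
  rw [transpose_transpose, transpose_smul, transpose_one] at this
  exact this

/-- P4: the pair lemma -/
theorem PG.pair (D : PG P h₁ E₁ Λ₁ h₂ E₂ Λ₂) (g : Gra P) (g1 : Good (P.map (LinearMap.fst ℂ _ _)) h₁ E₁ Λ₁)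
    (g2 : Good (P.map (LinearMap.snd ℂ _ _)) h₂ E₂ Λ₂) : LinkT P ∨ LinkF P := by
  obtain ⟨f1, f2, n1, n2⟩ := D.four g g1 g2
  rcases D.dens n1 n2 g1.ne g2.ne g f1 f2 with ⟨T, t0, t1, t2, t3⟩ | ⟨F, t0, t1, t2, t3⟩
  · exact Or.inl (D.ext n1 n2 g1.ne g2.ne f1 f2 t0 t1 t2 t3)
  · right
    have hne : (fun μ => (E₂ (-μ))ᵀ) (0 : ℝ) ≠ 1 := by
      intro h
      apply g2.ne
      change (E₂ (-0))ᵀ = 1 at h
      rw [neg_zero] at h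
      have := congrArg Matrix.transpose h
      rwa [transpose_transpose, transpose_one] at this
    have h1 : 4 ≤ finrank ℂ ((PK (P58 P) E₁ (fun μ => (E₂ (-μ))ᵀ)).map (LinearMap.fst ℂ _ _)) := by
      rw [fst58]; exact f1
    have h2 : 4 ≤ finrank ℂ ((PK (P58 P) E₁ (fun μ => (E₂ (-μ))ᵀ)).map (LinearMap.snd ℂ _ _)) := by
      rw [snd58, LinearEquiv.finrank_map_eq]
      exact f2
    obtain ⟨T, hT0, hT⟩ := D.neg58.ext (nr1_58 n1) (nr2_58 n2) g1.ne hne h1 h2 (T := F) t0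
      (by change (E₂ (-0))ᵀ * F = F; rw [neg_zero]; exact t1) t2 (by
        intro q hq
        obtain ⟨p, hp, rfl⟩ := of_PK58 hq
        change (-p.2ᵀ) * F = F * p.1
        rw [Matrix.neg_mul, neg_eq_iff_add_eq_zero]
        exact t3 p hp)
    refine ⟨T, hT0, fun p hp => ?_⟩
    obtain ⟨c, hc⟩ := hT _ (mem_P58 hp)
    refine ⟨-c, ?_⟩
    change (-p.2ᵀ) * T - T * p.1 = c • T at hc
    rw [neg_smul, ← hc, Matrix.neg_mul]
    abel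

end GH
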