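import Pool.Agent.Helper43.GH.Bas
import Pool.Agent.Helper63.GH.Dcom

/-!
Project GH, block C2: the dichotomy.
-/

set_option linter.unusedSectionVars false
set_option linter.unusedVariables false
set_option linter.unusedSimpArgs false

open Matrix Module

namespace GH

open MH

variable {n : Type*} [Fintype n] [DecidableEq n] {L : Submodule ℂ (Matrix n n ℂ)} {h : Matrix n n ℂ}
  {E : ℝ → Matrix n n ℂ} {Λ : Finset ℝ}

/-- the pair `(u, v)`, cut down to the kernel of `h`, acts on `L` -/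
private def Pr58 (L : Submodule ℂ (Matrix n n ℂ)) (h : Matrix n n ℂ) (E : ℝ → Matrix n n ℂ)
    (u v : Matrix n n ℂ) : Prop :=
  E 0 * u = u * E 0 ∧ E 0 * v = v * E 0 ∧
    ∀ ν : ℝ, ν ≠ 0 → ∀ x ∈ Ld L h ν, x * (u * E 0) + E 0 * v * x ∈ Ld L h ν

private theorem Pr58.mk' (G : Gr L h E Λ) {u v : Matrix n n ℂ} (h1 : E 0 * u = u * E 0)
    (h2 : E 0 * v = v * E 0)
    (h3 : ∀ ν : ℝ, ν ≠ 0 → ∀ x ∈ Ld L h ν, x * (u * E 0) + E 0 * v * x ∈ L) : Pr58 L h E u v := by
  refine ⟨h1, h2, fun ν hν x hx => ⟨h3 ν hν x hx, ?_⟩⟩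
  have e1 : (u * E 0) * h = 0 := by rw [mul_assoc, G.E0_h, mul_zero]
  have e2 : h * (E 0 * v) = 0 := by rw [← mul_assoc, G.h_E0, zero_mul]
  have e3 : h * (u * E 0) = 0 := by rw [← h1, ← mul_assoc, G.h_E0, zero_mul]
  have e4 : (E 0 * v) * h = 0 := by rw [h2, mul_assoc, G.E0_h, mul_zero]
  have e5 : h * (x * (u * E 0) + E 0 * v * x) - (x * (u * E 0) + E 0 * v * x) * h =
      (h * x - x * h) * (u * E 0) + E 0 * v * (h * x - x * h) +
        (x * (h * (u * E 0)) - x * ((u * E 0) * h)) + ((h * (E 0 * v)) * x - ((E 0 * v) * h) * x) := by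
    noncomm_ring
  rw [e5, e1, e2, e3, e4, hx.2]
  simp only [mul_zero, zero_mul, sub_zero, add_zero, smul_add, smul_mul_assoc, mul_smul_comm]

private theorem Pr58.mul (G : Gr L h E Λ) {u v u' v' : Matrix n n ℂ} (h1 : Pr58 L h E u v)
    (h2 : Pr58 L h E u' v') : Pr58 L h E (u * u') (v' * v) := by
  obtain ⟨a1, a2, a3⟩ := h1
  obtain ⟨b1, b2, b3⟩ := h2
  refine Pr58.mk' G (by rw [← mul_assoc, a1, mul_assoc, b1, mul_assoc])
    (by rw [← mul_assoc, b2, mul_assoc, a2, mul_assoc]) ?_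
  intro ν hν x hx
  have c1 := (b3 ν hν _ (a3 ν hν x hx)).1
  have c2 := G.EE hν hx
  have c3 := G.E0_E0
  have c4 : E 0 * v * x * (u' * E 0) = 0 := by
    rw [a2, ← b1]
    have : v * E 0 * x * (E 0 * u') = v * (E 0 * x * E 0) * u' := by noncomm_ring
    rw [this, c2]; simp
  have c5 : E 0 * v' * (x * (u * E 0)) = 0 := by
    rw [b2, ← a1]
    have : v' * E 0 * (x * (E 0 * u)) = v' * (E 0 * x * E 0) * u := by noncomm_ring
    rw [this, c2]; simp
  have c6 : u * E 0 * (u' * E 0) = u * u' * E 0 := by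
    rw [← b1, mul_assoc, ← mul_assoc (E 0), c3, b1, mul_assoc]
  have c7 : E 0 * v' * (E 0 * v) = E 0 * (v' * v) := by
    rw [b2, mul_assoc, ← mul_assoc (E 0) (E 0), c3, ← mul_assoc, ← b2, mul_assoc]
  have c8 : (x * (u * E 0) + E 0 * v * x) * (u' * E 0) + E 0 * v' * (x * (u * E 0) + E 0 * v * x) =
      x * (u * E 0 * (u' * E 0)) + E 0 * v * x * (u' * E 0) + E 0 * v' * (x * (u * E 0)) +
        E 0 * v' * (E 0 * v) * x := by noncomm_ring
  rw [c8, c4, c5, c6, c7] at c1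
  simpa using c1

private theorem adj_star58 {m : Type*} [Fintype m] [DecidableEq m] {S : Set (Matrix m m ℂ)}
    (hS : ∀ x ∈ S, xᴴ ∈ S) : ∀ x ∈ Algebra.adjoin ℂ S, xᴴ ∈ Algebra.adjoin ℂ S := by
  intro x hx
  induction hx using Algebra.adjoin_induction with
  | mem x hx => exact Algebra.subset_adjoin (hS x hx)
  | algebraMap r =>
    rw [Algebra.algebraMap_eq_smul_one, conjTranspose_smul, conjTranspose_one]
    exact Subalgebra.smul_mem _ (Subalgebra.one_mem _) _
  | add x y _ _ hx hy => rw [conjTranspose_add]; exact Subalgebra.add_mem _ hx hy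
  | mul x y _ _ hx hy => rw [conjTranspose_mul]; exact Subalgebra.mul_mem _ hy hx

private def S58 (L : Submodule ℂ (Matrix n n ℂ)) (E : ℝ → Matrix n n ℂ) :
    Set (Matrix (n ⊕ n) (n ⊕ n) ℂ) :=
  {m | m = fromBlocks (E 0) 0 0 (E 0)ᵀ ∨ ∃ z ∈ KK L E, m = fromBlocks z 0 0 (-zᵀ)}

private theorem S58_star (G : Gr L h E Λ) : ∀ x ∈ S58 L E, xᴴ ∈ S58 L E := by
  rintro x (rfl | ⟨z, hz, rfl⟩)
  · left
    rw [fromBlocks_conjTranspose, G.spec.star, conjTranspose_zero]
    congr 1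
    conv_rhs => rw [← G.spec.star 0]
    rfl
  · right
    refine ⟨zᴴ, G.KK_star hz, ?_⟩
    rw [fromBlocks_conjTranspose, conjTranspose_zero, conjTranspose_neg]
    rfl

private theorem adj58 (G : Gr L h E Λ) (U : Un L h E) : ∀ m ∈ Algebra.adjoin ℂ (S58 L E),
    ∃ u v : Matrix n n ℂ, m = fromBlocks u 0 0 vᵀ ∧ Pr58 L h E u v := by
  intro m hm
  induction hm using Algebra.adjoin_induction with
  | mem x hx =>
    rcases hx with rfl | ⟨z, hz, rfl⟩
    · refine ⟨E 0, E 0, rfl, Pr58.mk' G rfl rfl fun ν hν x hx => ?_⟩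
      rw [G.E0_E0]
      exact U ν hν x hx
    · refine ⟨z, -z, by rw [transpose_neg], Pr58.mk' G (by rw [G.KK_left hz, G.KK_right hz])
        (by rw [mul_neg, neg_mul, G.KK_left hz, G.KK_right hz]) fun ν hν x hx => ?_⟩
      rw [mul_neg, G.KK_left hz, G.KK_right hz, neg_mul, ← sub_eq_add_neg]
      exact G.br x hx.1 z hz.1
  | algebraMap r =>
    refine ⟨r • 1, r • 1, ?_, Pr58.mk' G (by simp) (by simp) fun ν hν x hx => ?_⟩
    · rw [Algebra.algebraMap_eq_smul_one, ← fromBlocks_one, fromBlocks_smul]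
      simp
    · have := L.smul_mem r (U ν hν x hx)
      simpa [smul_add] using this
  | add x y _ _ hx hy =>
    obtain ⟨u, v, rfl, a1, a2, a3⟩ := hx
    obtain ⟨u', v', rfl, b1, b2, b3⟩ := hy
    refine ⟨u + u', v + v', by rw [fromBlocks_add]; simp, Pr58.mk' G
      (by rw [mul_add, add_mul, a1, b1]) (by rw [mul_add, add_mul, a2, b2]) fun ν hν x hx => ?_⟩
    have := L.add_mem (a3 ν hν x hx).1 (b3 ν hν x hx).1
    have e : x * ((u + u') * E 0) + E 0 * (v + v') * x =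
      x * (u * E 0) + E 0 * v * x + (x * (u' * E 0) + E 0 * v' * x) := by noncomm_ring
    rw [e]; exact this
  | mul x y _ _ hx hy =>
    obtain ⟨u, v, rfl, a⟩ := hx
    obtain ⟨u', v', rfl, b⟩ := hy
    exact ⟨u * u', v' * v, by rw [fromBlocks_multiply]; simp, a.mul G b⟩

private theorem lift58 (G : Gr L h E Λ) : ∀ m ∈ Algebra.adjoin ℂ ({E 0} ∪ (KK L E : Set (Matrix n n ℂ))),
    ∃ v : Matrix n n ℂ, fromBlocks m 0 0 v ∈ Algebra.adjoin ℂ (S58 L E) := by
  intro m hm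
  induction hm using Algebra.adjoin_induction with
  | mem x hx =>
    rcases hx with hx | hx
    · rw [Set.mem_singleton_iff] at hx
      subst hx
      exact ⟨(E 0)ᵀ, Algebra.subset_adjoin (Or.inl rfl)⟩
    · exact ⟨-xᵀ, Algebra.subset_adjoin (Or.inr ⟨x, hx, rfl⟩)⟩
  | algebraMap r =>
    refine ⟨algebraMap ℂ _ r, ?_⟩
    have : fromBlocks (algebraMap ℂ (Matrix n n ℂ) r) 0 0 (algebraMap ℂ (Matrix n n ℂ) r) =
        algebraMap ℂ (Matrix (n ⊕ n) (n ⊕ n) ℂ) r := by
      rw [Algebra.algebraMap_eq_smul_one, Algebra.algebraMap_eq_smul_one, ← fromBlocks_one,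
        fromBlocks_smul]
      simp
    rw [this]
    exact Subalgebra.algebraMap_mem _ r
  | add x y _ _ hx hy =>
    obtain ⟨v, hv⟩ := hx
    obtain ⟨w, hw⟩ := hy
    refine ⟨v + w, ?_⟩
    have := Subalgebra.add_mem _ hv hw
    rw [fromBlocks_add] at this
    simpa using this
  | mul x y _ _ hx hy =>
    obtain ⟨v, hv⟩ := hx
    obtain ⟨w, hw⟩ := hy
    refine ⟨v * w, ?_⟩
    have := Subalgebra.mul_mem _ hv hw
    rw [fromBlocks_multiply] at this
    simpa using this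

/-- C2: the dichotomy -/
theorem Gr.dich (G : Gr L h E Λ) (U : Un L h E) (hk : ∀ T, Ck L E T → ∃ c : ℂ, T = c • E 0) (h4 : 1 ≤ finrank ℂ (KK L E)) :
    (∀ u : Matrix n n ℂ, E 0 * u * E 0 = u → ∀ ν : ℝ, ν ≠ 0 → ∀ x ∈ Ld L h ν, x * u ∈ L) ∨
      ∃ Q : Matrix n n ℂ, Q ≠ 0 ∧ (E 0)ᵀ * Q = Q ∧ Q * E 0 = Q ∧ ∀ z ∈ KK L E, zᵀ * Q + Q * z = 0 := by
  classical
  by_cases hQ : ∃ Q : Matrix n n ℂ, Q ≠ 0 ∧ (E 0)ᵀ * Q = Q ∧ Q * E 0 = Q ∧
      ∀ z ∈ KK L E, zᵀ * Q + Q * z = 0
  · exact Or.inr hQ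
  left
  have hQ' : ∀ Q : Matrix n n ℂ, (E 0)ᵀ * Q = Q → Q * E 0 = Q →
      (∀ z ∈ KK L E, zᵀ * Q + Q * z = 0) → Q = 0 := by
    intro Q h1 h2 h3
    by_contra h0
    exact hQ ⟨Q, h0, h1, h2, h3⟩
  have c3 := G.E0_E0
  have c3' : (E 0)ᵀ * (E 0)ᵀ = (E 0)ᵀ := by rw [← transpose_mul, c3]
  -- the projection to the first summand
  have hp : fromBlocks (E 0) 0 0 0 ∈ Algebra.adjoin ℂ (S58 L E) := by
    apply dcom _ (adj_star58 (S58_star G))
    intro y hy
    obtain ⟨y11, y12, y21, y22, rfl⟩ : ∃ a b c d : Matrix n n ℂ, y = fromBlocks a b c d :=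
      ⟨y.toBlocks₁₁, y.toBlocks₁₂, y.toBlocks₂₁, y.toBlocks₂₂, (fromBlocks_toBlocks y).symm⟩
    have he := hy _ (Algebra.subset_adjoin (Or.inl rfl))
    rw [fromBlocks_multiply, fromBlocks_multiply, fromBlocks_inj] at he
    simp only [mul_zero, zero_mul, add_zero, zero_add] at he
    obtain ⟨e1, e2, e3, e4⟩ := he
    have hz : ∀ z ∈ KK L E, y12 * zᵀ + z * y12 = 0 ∧ zᵀ * y21 + y21 * z = 0 := by
      intro z hz
      have h1 := hy _ (Algebra.subset_adjoin (Or.inr ⟨z, hz, rfl⟩))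
      rw [fromBlocks_multiply, fromBlocks_multiply, fromBlocks_inj] at h1
      simp only [mul_zero, zero_mul, add_zero, zero_add] at h1
      obtain ⟨-, h2, h3, -⟩ := h1
      constructor
      · rw [← h2]; simp
      · rw [h3]; simp
    have hA : y21 * E 0 = 0 := by
      apply hQ'
      · rw [e3, ← mul_assoc, c3']
      · rw [mul_assoc, c3]
      · intro z hz'
        have h1 := (hz z hz').2
        have h2 : y21 * E 0 * z = y21 * z * E 0 := by
          rw [mul_assoc, G.KK_left hz', mul_assoc, G.KK_right hz']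
        rw [h2, ← mul_assoc, ← add_mul, h1, zero_mul]
    have hB : y12ᴴ * E 0 = 0 := by
      have s1 : ((E 0)ᵀ)ᴴ = (E 0)ᵀ := by
        conv_rhs => rw [← G.spec.star 0]
        rfl
      have e2' : (E 0)ᵀ * y12ᴴ = y12ᴴ * E 0 := by
        have := congrArg Matrix.conjTranspose e2
        rw [conjTranspose_mul, conjTranspose_mul, s1, G.spec.star] at this
        exact this
      apply hQ'
      · rw [← e2', ← mul_assoc, c3']
      · rw [mul_assoc, c3]
      · intro z hz'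
        have h1 := congrArg Matrix.conjTranspose (hz _ (G.KK_star hz')).1
        rw [conjTranspose_add, conjTranspose_mul, conjTranspose_mul, conjTranspose_conjTranspose,
          conjTranspose_zero] at h1
        have s2 : ((zᴴ)ᵀ)ᴴ = zᵀ := by
          ext i j
          simp [Matrix.conjTranspose_apply, Matrix.transpose_apply]
        rw [s2] at h1
        have h2 : y12ᴴ * E 0 * z = y12ᴴ * z * E 0 := by
          rw [mul_assoc, G.KK_left hz', mul_assoc, G.KK_right hz']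
        rw [h2, ← mul_assoc, ← add_mul, h1, zero_mul]
    have hB' : E 0 * y12 = 0 := by
      have := congrArg Matrix.conjTranspose hB
      rw [conjTranspose_mul, conjTranspose_conjTranspose, G.spec.star, conjTranspose_zero] at this
      exact this
    rw [fromBlocks_multiply, fromBlocks_multiply]
    simp only [mul_zero, zero_mul, add_zero, zero_add]
    rw [hA, hB', e1]
  obtain ⟨u0, v0, hb, hp0⟩ := adj58 G U _ hp
  rw [fromBlocks_inj] at hb
  obtain ⟨rfl, -, -, hv0⟩ := hb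
  have hv0' : v0 = 0 := by
    have := congrArg Matrix.transpose hv0
    simpa using this.symm
  subst hv0'
  intro u hu ν hν x hx
  -- the element `x E 0`
  have hx1 : x * E 0 ∈ Ld L h ν := by
    have := hp0.2.2 ν hν x hx
    rw [c3] at this
    simpa using this
  have u1 : E 0 * u = u := by
    conv_lhs => rw [← hu]
    rw [← mul_assoc, ← mul_assoc, c3, hu]
  have u2 : u * E 0 = u := by
    conv_lhs => rw [← hu]
    rw [mul_assoc, c3, hu]
  -- `u` is in the algebra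
  have hu1 : u ∈ Algebra.adjoin ℂ ({E 0} ∪ (KK L E : Set (Matrix n n ℂ))) := by
    apply dcom _ (adj_star58 (S := {E 0} ∪ (KK L E : Set (Matrix n n ℂ))) ?_)
    · intro y hy
      have y0 := hy _ (Algebra.subset_adjoin (Or.inl rfl))
      obtain ⟨c, hc⟩ := hk (y * E 0) ⟨by rw [y0, ← mul_assoc, c3], by rw [mul_assoc, c3], by
        intro z hz
        have h1 := hy _ (Algebra.subset_adjoin (Or.inr hz))
        rw [mul_assoc, G.KK_left hz, h1, ← mul_assoc, h1.symm, mul_assoc, G.KK_right hz]⟩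
      calc u * y = u * (E 0 * y) := by rw [← mul_assoc, u2]
        _ = c • u := by rw [← y0, hc, mul_smul_comm, u2]
        _ = (y * E 0) * u := by rw [hc, smul_mul_assoc, u1]
        _ = y * u := by rw [mul_assoc, u1]
    · rintro z (hz | hz)
      · left
        rw [Set.mem_singleton_iff] at hz ⊢
        rw [hz, G.spec.star]
      · right
        exact G.KK_star hz
  obtain ⟨v, hv⟩ := lift58 G u hu1
  obtain ⟨u', w, hb, hp1⟩ := adj58 G U _ hv
  rw [fromBlocks_inj] at hb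
  obtain ⟨rfl, -, -, -⟩ := hb
  have h5 := (hp1.2.2 ν hν _ hx1).1
  have h6 : E 0 * w * (x * E 0) = 0 := by
    rw [hp1.2.1]
    have : w * E 0 * (x * E 0) = w * (E 0 * x * E 0) := by noncomm_ring
    rw [this, G.EE hν hx, mul_zero]
  rw [h6, add_zero, u2, mul_assoc, u1] at h5
  exact h5

end GH
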